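import Pool.Agent.Y930.NV.Cen

/-!
# Every block contains an irreducible complex character: the argument (helper353)
-/

set_option autoImplicit false
set_option linter.unusedSectionVars false

open scoped Classical BigOperators

noncomputable section

namespace Pool.Agent.N85.TG.Exc

open Pool.Agent.Y63.NV Pool.Agent.Y930.NV
open Pool.Agent.Y63.AWC (IsIrreducibleCharacter)

/-- the algebraic integers -/
abbrev Oc : Type := integralClosure ℤ ℂ

section

variable {J : Type} [Group J] [Fintype J]

/-- the values as complex numbers -/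
def toC (a : J → Oc) : J → ℂ := fun g => (a g : ℂ)

/-- the reduced values -/
def toF {F : Type} [Field F] (red : Oc →+* F) (a : J → Oc) : J → F := fun g => red (a g)

theorem toC_cv (a b : J → Oc) : toC (cv a b) = cv (toC a) (toC b) := by
  funext x
  unfold toC cv
  push_cast
  rfl

theorem toF_cv {F : Type} [Field F] (red : Oc →+* F) (a b : J → Oc) :
    toF red (cv a b) = cv (toF red a) (toF red b) := by
  funext x
  unfold toF cv
  rw [map_sum]
  refine Finset.sum_congr rfl fun y _ => ?_
  rw [map_mul]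

theorem Cf_toC {a : J → Oc} (h : Cf a) : Cf (toC a) := fun g x => by
  unfold toC
  rw [h]

theorem Cf_toF {F : Type} [Field F] (red : Oc →+* F) {a : J → Oc} (h : Cf a) :
    Cf (toF red a) := fun g x => by
  unfold toF
  rw [h]

theorem Cf_one {A : Type} [CommRing A] : Cf (Pi.single 1 1 : J → A) := by
  intro g x
  by_cases hx : x = 1
  · subst hx
    rw [mul_one, mul_inv_cancel]
  · have h2 : g * x * g⁻¹ ≠ 1 := by
      intro h
      apply hx
      have h3 : g * x = g := by
        rw [mul_inv_eq_one] at h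
        exact h
      exact mul_eq_left.1 h3
    rw [Pi.single_eq_of_ne h2, Pi.single_eq_of_ne hx]

/-- the function `K_C - w` -/
def ac (C : ConjClasses J) (w : Oc) : J → Oc := fun g => ind Oc C g - w * (Pi.single 1 1 : J → Oc) g

theorem Cf_ac (C : ConjClasses J) (w : Oc) : Cf (ac C w) := fun g x => by
  unfold ac
  rw [Cf_ind Oc C g x, Cf_one g x]

theorem om_ac {χ : J → ℂ} (h : IsIrreducibleCharacter χ) (C : ConjClasses J) (w : Oc) :
    om χ (toC (ac C w)) = om χ (ind ℂ C) - (w : ℂ) := by
  have h1 : toC (ac C w) = fun g => ind ℂ C g - (w : ℂ) * (Pi.single 1 1 : J → ℂ) g := by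
    funext g
    unfold toC ac ind
    by_cases hg : g = 1
    · subst hg
      rw [Pi.single_eq_same, Pi.single_eq_same]
      push_cast
      split_ifs <;> simp
    · rw [Pi.single_eq_of_ne hg, Pi.single_eq_of_ne hg]
      split_ifs <;> simp
  have h2 : om χ (fun g => ind ℂ C g - (w : ℂ) * (Pi.single 1 1 : J → ℂ) g) =
      om χ (ind ℂ C) - (w : ℂ) * om χ (Pi.single 1 1) := by
    unfold om
    rw [mul_div_assoc', ← sub_div, Finset.mul_sum, ← Finset.sum_sub_distrib]
    congr 1
    refine Finset.sum_congr rfl fun g _ => ?_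
    ring
  rw [h1, h2, om_one h, mul_one]

/-- the product of a list -/
def P (l : List (J → Oc)) : J → Oc := l.foldr cv (Pi.single 1 1)

theorem P_cons (a : J → Oc) (l : List (J → Oc)) : P (a :: l) = cv a (P l) := rfl

theorem Cf_P (l : List (J → Oc)) (h : ∀ a ∈ l, Cf a) : Cf (P l) := by
  induction l with
  | nil => exact Cf_one
  | cons a l ih =>
    rw [P_cons]
    exact Cf_cv (h a (by simp)) (ih fun b hb => h b (by simp [hb]))

theorem toC_one : toC (Pi.single 1 1 : J → Oc) = Pi.single 1 1 := by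
  funext g
  unfold toC
  by_cases hg : g = 1
  · subst hg
    rw [Pi.single_eq_same, Pi.single_eq_same]
    rfl
  · rw [Pi.single_eq_of_ne hg, Pi.single_eq_of_ne hg]
    rfl

theorem toF_one {F : Type} [Field F] (red : Oc →+* F) :
    toF red (Pi.single 1 1 : J → Oc) = Pi.single 1 1 := by
  funext g
  unfold toF
  by_cases hg : g = 1
  · subst hg
    rw [Pi.single_eq_same, Pi.single_eq_same, map_one]
  · rw [Pi.single_eq_of_ne hg, Pi.single_eq_of_ne hg, map_zero]

theorem om_P {χ : J → ℂ} (hχ : IsIrreducibleCharacter χ) (l : List (J → Oc)) (h : ∀ a ∈ l, Cf a) :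
    om χ (toC (P l)) = (l.map fun a => om χ (toC a)).prod := by
  induction l with
  | nil =>
    rw [List.map_nil, List.prod_nil]
    show om χ (toC (Pi.single 1 1)) = 1
    rw [toC_one, om_one hχ]
  | cons a l ih =>
    have hl : ∀ b ∈ l, Cf b := fun b hb => h b (by simp [hb])
    rw [P_cons, toC_cv, om_mul hχ (Cf_toC (h a (by simp))) (Cf_toC (Cf_P l hl)), ih hl,
      List.map_cons, List.prod_cons]

theorem B_P {F : Type} [Field F] (red : Oc →+* F) {B : (J → F) → F} (hB : IsBlock B)
    (l : List (J → Oc)) (h : ∀ a ∈ l, Cf a) :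
    B (toF red (P l)) = (l.map fun a => B (toF red a)).prod := by
  induction l with
  | nil =>
    rw [List.map_nil, List.prod_nil]
    show B (toF red (Pi.single 1 1)) = 1
    rw [toF_one, hB.one]
  | cons a l ih =>
    have hl : ∀ b ∈ l, Cf b := fun b hb => h b (by simp [hb])
    rw [P_cons, toF_cv, ← cv_eq_conv, hB.mul _ _ (Cf_toF red (h a (by simp)))
      (Cf_toF red (Cf_P l hl)), ih hl, List.map_cons, List.prod_cons]

theorem B_ac {F : Type} [Field F] (red : Oc →+* F) {B : (J → F) → F} (hB : IsBlock B)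
    (C : ConjClasses J) (w : Oc) : B (toF red (ac C w)) = B (ind F C) - red w := by
  have h1 : toF red (ac C w) = ind F C + (-(red w)) • (Pi.single 1 1 : J → F) := by
    funext g
    rw [Pi.add_apply, Pi.smul_apply, smul_eq_mul]
    unfold toF ac ind
    by_cases hg : g = 1
    · subst hg
      rw [Pi.single_eq_same, Pi.single_eq_same, map_sub, map_mul, map_one]
      split_ifs <;> simp [sub_eq_add_neg]
    · rw [Pi.single_eq_of_ne hg, Pi.single_eq_of_ne hg, map_sub, map_mul, map_zero]
      split_ifs <;> simp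
  have c1 : IsClassFun (ind F C) := Cf_ind F C
  have c2 : IsClassFun (Pi.single 1 1 : J → F) := Cf_one
  have c3 : IsClassFun ((-(red w)) • (Pi.single 1 1 : J → F)) := fun g x => by
    rw [Pi.smul_apply, Pi.smul_apply, c2 g x]
  rw [h1, hB.add _ _ c1 c3, hB.smul _ _ c2, hB.one]
  ring

theorem B_zero {F : Type} [Field F] {B : (J → F) → F} (hB : IsBlock B) :
    B (0 : J → F) = 0 := by
  have h := hB.smul 0 (0 : J → F) (fun _ _ => rfl)
  rw [zero_smul, zero_mul] at h
  exact h

theorem B_sum {F : Type} [Field F] {B : (J → F) → F} (hB : IsBlock B) (s : Finset (ConjClasses J))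
    (c : ConjClasses J → F) :
    B (fun g => ∑ C ∈ s, c C * ind F C g) = ∑ C ∈ s, c C * B (ind F C) := by
  induction s using Finset.induction_on with
  | empty =>
    rw [Finset.sum_empty]
    have : (fun g : J => ∑ C ∈ (∅ : Finset (ConjClasses J)), c C * ind F C g) = (0 : J → F) := by
      funext g
      rw [Finset.sum_empty]
      rfl
    rw [this, B_zero hB]
  | insert D s hD ih =>
    have h1 : (fun g : J => ∑ C ∈ insert D s, c C * ind F C g) =
        c D • ind F D + fun g => ∑ C ∈ s, c C * ind F C g := by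
      funext g
      rw [Finset.sum_insert hD, Pi.add_apply, Pi.smul_apply, smul_eq_mul]
    have c1 : IsClassFun (ind F D) := Cf_ind F D
    have c2 : IsClassFun (c D • ind F D) := fun g x => by
      rw [Pi.smul_apply, Pi.smul_apply, c1 g x]
    have c3 : IsClassFun (fun g : J => ∑ C ∈ s, c C * ind F C g) := fun g x =>
      Finset.sum_congr rfl fun C _ => by rw [Cf_ind F C g x]
    rw [h1, hB.add _ _ c2 c3, hB.smul _ _ c1, ih, Finset.sum_insert hD]

theorem core {F : Type} [Field F] (red : Oc →+* F) {B : (J → F) → F} (hB : IsBlock B) :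
    ∃ χ : J → ℂ, IsIrreducibleCharacter χ ∧
      ∀ f : J → F, IsClassFun f → centralValue red χ f = B f := by
  by_contra hcon
  -- the separating classes
  have h1 : ∀ χ : J → ℂ, IsIrreducibleCharacter χ → ∃ C : ConjClasses J,
      B (ind F C) ≠ R red χ (ind ℤ C) := by
    intro χ hχ
    by_contra h2
    apply hcon
    refine ⟨χ, hχ, fun f hf => ?_⟩
    rw [centralValue_eq red hχ f]
    have h3 : f = fun g => ∑ C : ConjClasses J, f C.out * ind F C g :=
      funext fun g => Cf_expand hf g
    have h4 := B_sum hB Finset.univ fun C => f C.out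
    rw [← h3] at h4
    rw [h4]
    refine Finset.sum_congr rfl fun C _ => ?_
    congr 1
    by_contra h5
    exact h2 ⟨C, fun h6 => h5 h6.symm⟩
  have h2 : ∀ χ : J → ℂ, ∃ (C : ConjClasses J) (w : Oc), IsIrreducibleCharacter χ →
      (w : ℂ) = om χ (ind ℂ C) ∧ B (ind F C) ≠ red w := by
    intro χ
    by_cases hχ : IsIrreducibleCharacter χ
    · obtain ⟨C, hC⟩ := h1 χ hχ
      have hi := om_int hχ (Cf_ind ℤ C)
      rw [ind_cast] at hi
      refine ⟨C, ⟨om χ (ind ℂ C), hi⟩, fun _ => ⟨rfl, ?_⟩⟩
      unfold R at hC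
      rw [ind_cast, redC_of red hi] at hC
      exact hC
    · exact ⟨ConjClasses.mk 1, 0, fun h => absurd h hχ⟩
  choose Cc w hw using h2
  obtain ⟨l, hl⟩ : ∃ l : List (J → Oc), l = (Pool.Agent.Helper884.IC.Irr J).toList.map
      fun χ => ac (Cc χ) (w χ) := ⟨_, rfl⟩
  have hlC : ∀ a ∈ l, Cf a := by
    intro a ha
    rw [hl, List.mem_map] at ha
    obtain ⟨χ, -, rfl⟩ := ha
    exact Cf_ac _ _
  have hmem : ∀ χ : J → ℂ, χ ∈ Pool.Agent.Helper884.IC.Irr J ↔ IsIrreducibleCharacter χ :=
    fun χ => Pool.Agent.Helper884.IC.mem_Irr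
  -- the product vanishes
  have h3 : ∀ χ : J → ℂ, IsIrreducibleCharacter χ → om χ (toC (P l)) = 0 := by
    intro χ hχ
    rw [om_P hχ l hlC, List.prod_eq_zero_iff, List.mem_map]
    refine ⟨ac (Cc χ) (w χ), ?_, ?_⟩
    · rw [hl, List.mem_map]
      exact ⟨χ, Finset.mem_toList.2 ((hmem χ).2 hχ), rfl⟩
    · rw [om_ac hχ, ← (hw χ hχ).1, sub_self]
  have h4 : (fun g : J => toC (P l) g⁻¹) = 0 := by
    apply Pool.Agent.Helper884.IC.class_eq_zero
    · intro g y
      have e : (y * g * y⁻¹)⁻¹ = y * g⁻¹ * y⁻¹ := by group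
      show toC (P l) (y * g * y⁻¹)⁻¹ = toC (P l) g⁻¹
      rw [e]
      exact Cf_toC (Cf_P l hlC) y g⁻¹
    · intro χ hχ
      have h5 := h3 χ hχ
      unfold om at h5
      rw [div_eq_zero_iff] at h5
      have h6 : ∑ g : J, toC (P l) g * χ g = 0 := h5.resolve_right (irr_one_ne hχ)
      unfold Pool.Agent.Helper884.IC.B
      have h7 : ∑ g : J, (fun g : J => toC (P l) g⁻¹) g * χ g⁻¹ = ∑ g : J, toC (P l) g * χ g :=
        Fintype.sum_equiv (Equiv.inv J) _ _ fun g => by simp
      rw [h7, h6, mul_zero]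
  have h5 : P l = 0 := by
    funext g
    have h6 := congrFun h4 g⁻¹
    simp only [inv_inv, Pi.zero_apply] at h6
    exact Subtype.ext h6
  have h6 : toF red (P l) = 0 := by
    funext g
    unfold toF
    rw [h5, Pi.zero_apply, map_zero, Pi.zero_apply]
  have h7 := B_P red hB l hlC
  rw [h6, B_zero hB] at h7
  have h8 := List.prod_eq_zero_iff.1 h7.symm
  rw [List.mem_map] at h8
  obtain ⟨a, ha, ha0⟩ := h8
  rw [hl, List.mem_map] at ha
  obtain ⟨χ, hχ, rfl⟩ := ha
  rw [Finset.mem_toList, hmem] at hχ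
  rw [B_ac red hB, sub_eq_zero] at ha0
  exact (hw χ hχ).2 ha0

end

end Pool.Agent.N85.TG.Exc
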